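import Mathlib

/-!
# Counting subsets without certain triples (second moment)
-/

set_option autoImplicit false

namespace Pool.Agent.Q326.CT

open Finset

variable {α : Type*} [DecidableEq α]

/-- the number of `k`-subsets of `V` containing a fixed set `A ⊆ V` -/
theorem card_superset (V A : Finset α) (k : ℕ) (hA : A ⊆ V) :
    ((V.powersetCard k).filter fun T => A ⊆ T).card * V.card.descFactorial A.card =
      V.card.choose k * k.descFactorial A.card := by
  rcases lt_or_ge k A.card with hk | hk
  · have h1 : (V.powersetCard k).filter (fun T => A ⊆ T) = ∅ := by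
      ext T
      simp only [mem_filter, mem_powersetCard, notMem_empty, iff_false, not_and]
      intro h h2
      have := card_le_card h2
      omega
    rw [h1, card_empty, zero_mul, Nat.descFactorial_eq_zero_iff_lt.2 hk, mul_zero]
  · have h1 : ((V.powersetCard k).filter fun T => A ⊆ T).card =
        ((V \ A).powersetCard (k - A.card)).card := by
      refine card_nbij' (fun T => T \ A) (fun T => T ∪ A) ?_ ?_ ?_ ?_
      · intro T hT
        simp only [coe_filter, mem_powersetCard, Set.mem_ofPred_eq] at hT
        simp only [mem_coe, mem_powersetCard]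
        exact ⟨sdiff_subset_sdiff hT.1.1 le_rfl, by rw [card_sdiff_of_subset hT.2, hT.1.2]⟩
      · intro T hT
        simp only [mem_coe, mem_powersetCard] at hT
        simp only [coe_filter, mem_powersetCard, Set.mem_ofPred_eq]
        have hd : Disjoint T A := disjoint_of_subset_left hT.1 sdiff_disjoint
        refine ⟨⟨union_subset (hT.1.trans sdiff_subset) hA, ?_⟩, subset_union_right⟩
        rw [card_union_of_disjoint hd, hT.2]
        omega
      · intro T hT
        simp only [coe_filter, mem_powersetCard, Set.mem_ofPred_eq] at hT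
        exact sdiff_union_of_subset hT.2
      · intro T hT
        simp only [mem_coe, mem_powersetCard] at hT
        have hd : Disjoint T A := disjoint_of_subset_left hT.1 sdiff_disjoint
        exact union_sdiff_cancel_right hd
    rw [h1, card_powersetCard, card_sdiff_of_subset hA, Nat.descFactorial_eq_factorial_mul_choose,
      Nat.descFactorial_eq_factorial_mul_choose]
    rcases le_or_gt k V.card with hv | hv
    · have := Nat.choose_mul (n := V.card) (k := k) (s := A.card) hk
      calc (V.card - A.card).choose (k - A.card) * (A.card.factorial * V.card.choose A.card)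
          = A.card.factorial * (V.card.choose A.card *
            (V.card - A.card).choose (k - A.card)) := by ring
        _ = A.card.factorial * (V.card.choose k * k.choose A.card) := by rw [this]
        _ = _ := by ring
    · rw [Nat.choose_eq_zero_of_lt hv, Nat.choose_eq_zero_of_lt (by
        have := card_le_card hA
        omega)]
      simp

/-- the proportion of the `k`-subsets of a `v`-set containing a given `j`-set -/
noncomputable def rho (v k j : ℕ) : ℝ := (k.descFactorial j : ℝ) / v.descFactorial j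

theorem card_superset' (V A : Finset α) (k : ℕ) (hA : A ⊆ V) :
    (((V.powersetCard k).filter fun T => A ⊆ T).card : ℝ) =
      V.card.choose k * rho V.card k A.card := by
  have h := card_superset V A k hA
  have h0 : (0 : ℝ) < V.card.descFactorial A.card := by
    exact_mod_cast Nat.descFactorial_pos.2 (card_le_card hA)
  rw [rho, mul_div_assoc', eq_div_iff h0.ne']
  exact_mod_cast h

theorem rho_nonneg (v k j : ℕ) : 0 ≤ rho v k j := by
  unfold rho
  positivity

theorem rho_six {v k : ℕ} (hk : k ≤ v) (hv : 6 ≤ v) : rho v k 6 ≤ rho v k 3 ^ 2 := by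
  have h6 : (0 : ℝ) < v.descFactorial 6 := by exact_mod_cast Nat.descFactorial_pos.2 hv
  have h3 : (0 : ℝ) < v.descFactorial 3 := by exact_mod_cast Nat.descFactorial_pos.2 (by omega)
  rw [rho, rho, div_pow, div_le_div_iff₀ h6 (by positivity)]
  have e1 : ∀ n : ℕ, n.descFactorial 6 = (n - 5) * ((n - 4) * ((n - 3) * n.descFactorial 3)) := by
    intro n
    simp [Nat.descFactorial_succ]
  have e2 : ∀ n : ℕ, n.descFactorial 3 = (n - 2) * ((n - 1) * n) := by
    intro n
    simp [Nat.descFactorial_succ]
  have key : ∀ i : ℕ, (k - 3 - i) * (v - i) ≤ (k - i) * (v - 3 - i) := by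
    intro i
    rcases le_or_gt (3 + i) k with h | h
    · obtain ⟨a, rfl⟩ := Nat.exists_eq_add_of_le h
      obtain ⟨b, rfl⟩ := Nat.exists_eq_add_of_le hk
      have e3 : 3 + i + a - 3 - i = a := by omega
      have e4 : 3 + i + a + b - i = 3 + a + b := by omega
      have e5 : 3 + i + a - i = 3 + a := by omega
      have e6 : 3 + i + a + b - 3 - i = a + b := by omega
      rw [e3, e4, e5, e6]
      nlinarith
    · rw [show k - 3 - i = 0 by omega, zero_mul]
      exact Nat.zero_le _
  have k0 := key 0
  have k1 := key 1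
  have k2 := key 2
  have h : k.descFactorial 6 * v.descFactorial 3 ^ 2 ≤ k.descFactorial 3 ^ 2 * v.descFactorial 6 := by
    rw [e1 k, e1 v]
    have e7 : k - 3 - 1 = k - 4 := by omega
    have e8 : k - 3 - 2 = k - 5 := by omega
    have e9 : v - 3 - 1 = v - 4 := by omega
    have e10 : v - 3 - 2 = v - 5 := by omega
    simp only [Nat.sub_zero] at k0
    rw [e7, e9] at k1
    rw [e8, e10] at k2
    have hm := Nat.mul_le_mul (Nat.mul_le_mul k0 k1) k2
    have e3 := e2 k
    have e4 := e2 v
    generalize k.descFactorial 3 = P at *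
    generalize v.descFactorial 3 = W at *
    calc (k - 5) * ((k - 4) * ((k - 3) * P)) * W ^ 2
        = ((k - 3) * v * ((k - 4) * (v - 1)) * ((k - 5) * (v - 2))) * (P * W) := by
          rw [pow_two]
          nth_rewrite 2 [e4]
          ring
      _ ≤ (k * (v - 3) * ((k - 1) * (v - 4)) * ((k - 2) * (v - 5))) * (P * W) :=
          Nat.mul_le_mul_right _ hm
      _ = P ^ 2 * ((v - 5) * ((v - 4) * ((v - 3) * W))) := by
          rw [pow_two]
          nth_rewrite 3 [e3]
          ring
  exact_mod_cast h

/-- Few subsets contain none of many disjoint triples. -/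
theorem few_avoid {ι : Type*} [DecidableEq ι] (V : Finset α) (k : ℕ) (hk : k ≤ V.card)
    (hv : 6 ≤ V.card) (I : Finset ι) (τ : ι → Finset α) (hτ : ∀ i ∈ I, τ i ⊆ V)
    (h3 : ∀ i ∈ I, (τ i).card = 3) (hd : ∀ i ∈ I, ∀ j ∈ I, i ≠ j → Disjoint (τ i) (τ j)) :
    (((V.powersetCard k).filter fun T => ∀ i ∈ I, ¬ τ i ⊆ T).card : ℝ) *
      (I.card * rho V.card k 3) ≤ V.card.choose k := by
  classical
  set B : ℝ := ((V.card.choose k : ℕ) : ℝ) with hB
  set μ : ℝ := (I.card : ℝ) * rho V.card k 3 with hμ
  set P := V.powersetCard k with hP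
  have hμ0 : 0 ≤ μ := mul_nonneg (Nat.cast_nonneg _) (rho_nonneg _ _ _)
  let X : Finset α → ℝ := fun T => ∑ i ∈ I, if τ i ⊆ T then 1 else 0
  have hPB : (P.card : ℝ) = B := by rw [hP, card_powersetCard]
  have s1 : ∑ T ∈ P, X T = B * μ := by
    simp only [X]
    rw [sum_comm]
    have : ∀ i ∈ I, (∑ T ∈ P, if τ i ⊆ T then (1 : ℝ) else 0) = B * rho V.card k 3 := by
      intro i hi
      rw [← sum_filter, sum_const, nsmul_eq_mul, mul_one, card_superset' V (τ i) k (hτ i hi),
        h3 i hi]
    rw [sum_congr rfl this, sum_const, nsmul_eq_mul, hμ]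
    ring
  have s2 : ∑ T ∈ P, X T ^ 2 ≤ B * μ + B * μ ^ 2 := by
    have e1 : ∀ T, X T ^ 2 = ∑ i ∈ I, ∑ j ∈ I, if τ i ∪ τ j ⊆ T then (1 : ℝ) else 0 := by
      intro T
      simp only [X]
      rw [pow_two, sum_mul_sum]
      refine sum_congr rfl fun i _ => sum_congr rfl fun j _ => ?_
      by_cases h1 : τ i ⊆ T <;> by_cases h2 : τ j ⊆ T <;> simp [h1, h2, union_subset_iff]
    simp only [e1]
    rw [sum_comm]
    have e2 : ∀ i ∈ I, (∑ T ∈ P, ∑ j ∈ I, if τ i ∪ τ j ⊆ T then (1 : ℝ) else 0) ≤
        B * rho V.card k 3 + I.card * (B * rho V.card k 3 ^ 2) := by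
      intro i hi
      rw [sum_comm]
      have e3 : ∀ j ∈ I, (∑ T ∈ P, if τ i ∪ τ j ⊆ T then (1 : ℝ) else 0) ≤
          (if j = i then B * rho V.card k 3 else 0) + B * rho V.card k 3 ^ 2 := by
        intro j hj
        rw [← sum_filter, sum_const, nsmul_eq_mul, mul_one,
          card_superset' V (τ i ∪ τ j) k (union_subset (hτ i hi) (hτ j hj))]
        have hB0 : 0 ≤ B := Nat.cast_nonneg _
        split_ifs with hij
        · subst hij
          rw [union_self, h3 j hi]
          have := rho_nonneg V.card k 3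
          nlinarith [mul_nonneg hB0 (sq_nonneg (rho V.card k 3))]
        · rw [card_union_of_disjoint (hd i hi j hj (Ne.symm hij)), h3 i hi, h3 j hj, zero_add]
          exact mul_le_mul_of_nonneg_left (rho_six hk hv) hB0
      refine (sum_le_sum e3).trans (le_of_eq ?_)
      rw [sum_add_distrib, sum_ite_eq' I i, if_pos hi, sum_const, nsmul_eq_mul]
    refine (sum_le_sum e2).trans (le_of_eq ?_)
    rw [sum_const, nsmul_eq_mul, hμ]
    ring
  set Z := (P.filter fun T => ∀ i ∈ I, ¬ τ i ⊆ T) with hZ
  have s3 : (Z.card : ℝ) * μ ^ 2 ≤ ∑ T ∈ P, (X T - μ) ^ 2 := by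
    have : ∑ T ∈ Z, (X T - μ) ^ 2 = Z.card * μ ^ 2 := by
      rw [← nsmul_eq_mul, ← sum_const]
      refine sum_congr rfl fun T hT => ?_
      have : X T = 0 := by
        simp only [X]
        refine sum_eq_zero fun i hi => ?_
        rw [if_neg ((mem_filter.1 hT).2 i hi)]
      rw [this]
      ring
    rw [← this]
    exact sum_le_sum_of_subset_of_nonneg (filter_subset _ _) fun T _ _ => sq_nonneg _
  have s4 : ∑ T ∈ P, (X T - μ) ^ 2 = ∑ T ∈ P, X T ^ 2 - 2 * μ * ∑ T ∈ P, X T + B * μ ^ 2 := by
    rw [← hPB, ← nsmul_eq_mul (n := P.card), ← sum_const, mul_sum, ← sum_sub_distrib,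
      ← sum_add_distrib]
    exact sum_congr rfl fun T _ => by ring
  rw [s4, s1] at s3
  have s5 : (Z.card : ℝ) * μ ^ 2 ≤ B * μ := by nlinarith
  rcases hμ0.eq_or_lt with h | h
  · rw [← h, mul_zero, hB]
    exact Nat.cast_nonneg _
  · have : (Z.card : ℝ) * μ * μ ≤ B * μ := by nlinarith
    exact le_of_mul_le_mul_right this h

end Pool.Agent.Q326.CT
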