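import Mathlib

/-!
# Sample-based testing of planar convexity: definitions and plane geometry
-/

set_option autoImplicit false

namespace Pool.Agent.Q326.CT

open Finset

/-- `S` is in general position: no three different points of `S` are collinear. -/
def General (S : Finset (ℝ × ℝ)) : Prop :=
  ∀ a ∈ S, ∀ b ∈ S, ∀ c ∈ S, a ≠ b → a ≠ c → b ≠ c → ¬ Collinear ℝ {a, b, c}

/-- `S` is convex (in convex position): every point of `S` is a vertex of the convex hull, that is,
it is not in the convex hull of the other points. -/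
def ConvexPos (S : Finset (ℝ × ℝ)) : Prop :=
  ∀ x ∈ S, x ∉ convexHull ℝ ((S.erase x : Finset (ℝ × ℝ)) : Set (ℝ × ℝ))

theorem ConvexPos.mono {S T : Finset (ℝ × ℝ)} (h : ConvexPos S) (hT : T ⊆ S) : ConvexPos T := by
  intro x hx hx'
  refine h x (hT hx) (convexHull_mono ?_ hx')
  exact_mod_cast erase_subset_erase x hT

theorem collinear_of_det {a b c : ℝ × ℝ}
    (h : (b.1 - a.1) * (c.2 - a.2) - (b.2 - a.2) * (c.1 - a.1) = 0) : Collinear ℝ {a, b, c} := by
  rw [collinear_iff_of_mem (p₀ := a) (by simp)]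
  by_cases hb : b = a
  · refine ⟨c - a, fun p hp => ?_⟩
    simp only [Set.mem_insert_iff, Set.mem_singleton_iff] at hp
    rcases hp with rfl | rfl | rfl
    · exact ⟨0, by simp⟩
    · exact ⟨0, by simp [hb]⟩
    · exact ⟨1, by simp⟩
  · refine ⟨b - a, fun p hp => ?_⟩
    simp only [Set.mem_insert_iff, Set.mem_singleton_iff] at hp
    rcases hp with rfl | rfl | rfl
    · exact ⟨0, by simp⟩
    · exact ⟨1, by simp⟩
    · by_cases h1 : b.1 = a.1
      · have h2 : b.2 - a.2 ≠ 0 := fun h2 => hb (Prod.ext h1 (by linarith))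
        have h3 : p.1 = a.1 := by
          rw [h1, sub_self, zero_mul, zero_sub, neg_eq_zero] at h
          have := (mul_eq_zero.1 h).resolve_left h2
          linarith
        refine ⟨(p.2 - a.2) / (b.2 - a.2), Prod.ext ?_ ?_⟩
        · simp [h1, h3]
        · simp only [vadd_eq_add, Prod.snd_add, Prod.smul_snd, Prod.snd_sub, smul_eq_mul]
          field_simp
          ring
      · have h2 : b.1 - a.1 ≠ 0 := sub_ne_zero.2 h1
        refine ⟨(p.1 - a.1) / (b.1 - a.1), Prod.ext ?_ ?_⟩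
        · simp only [vadd_eq_add, Prod.fst_add, Prod.smul_fst, Prod.fst_sub, smul_eq_mul]
          field_simp
          ring
        · simp only [vadd_eq_add, Prod.snd_add, Prod.smul_snd, Prod.snd_sub, smul_eq_mul]
          field_simp
          linarith

theorem det_of_collinear {a b c : ℝ × ℝ} (h : Collinear ℝ {a, b, c}) :
    (b.1 - a.1) * (c.2 - a.2) - (b.2 - a.2) * (c.1 - a.1) = 0 := by
  rw [collinear_iff_of_mem (p₀ := a) (by simp)] at h
  obtain ⟨v, hv⟩ := h
  obtain ⟨r, hr⟩ := hv b (by simp)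
  obtain ⟨s, hs⟩ := hv c (by simp)
  rw [hr, hs]
  simp
  ring

theorem mem_hull_three {a b c d : ℝ × ℝ} {x y z : ℝ} (hx : 0 ≤ x) (hy : 0 ≤ y) (hz : 0 ≤ z)
    (h : x + y + z = 1) (hd : d = x • a + y • b + z • c) : d ∈ convexHull ℝ {a, b, c} := by
  rw [hd, add_assoc]
  have hmem : ∀ p ∈ ({a, b, c} : Set (ℝ × ℝ)), p ∈ convexHull ℝ {a, b, c} :=
    fun p hp => subset_convexHull ℝ _ hp
  rcases eq_or_lt_of_le (add_nonneg hy hz) with h0 | h0
  · have : y = 0 := by linarith
    have : z = 0 := by linarith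
    have : x = 1 := by linarith
    subst_vars
    simpa using hmem a (by simp)
  · have hc := convex_convexHull ℝ ({a, b, c} : Set (ℝ × ℝ))
    have h1 : (y / (y + z)) • b + (z / (y + z)) • c ∈ convexHull ℝ {a, b, c} := by
      refine hc (hmem b (by simp)) (hmem c (by simp)) (by positivity) (by positivity) ?_
      field_simp
    have h2 := hc (hmem a (by simp)) h1 hx (add_nonneg hy hz) (by linarith)
    rw [smul_add, smul_smul, smul_smul, mul_div_cancel₀ _ h0.ne', mul_div_cancel₀ _ h0.ne'] at h2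
    exact h2

theorem ratio_min {α β γ x y z : ℝ} (hα : 0 ≤ α) (hβ : 0 ≤ β) (hγ : 0 ≤ γ) (h : x + y + z = 1) :
    (0 < x ∧ α * y ≤ β * x ∧ α * z ≤ γ * x) ∨ (0 < y ∧ β * x ≤ α * y ∧ β * z ≤ γ * y) ∨
      (0 < z ∧ γ * x ≤ α * z ∧ γ * y ≤ β * z) := by
  have aux : ∀ {α β x y : ℝ}, 0 ≤ α → 0 ≤ β → 0 < x → y ≤ 0 → α * y ≤ β * x := by
    intro α β x y h1 h2 h3 h4
    nlinarith [mul_nonneg h1 (neg_nonneg.2 h4), mul_nonneg h2 h3.le]
  have tr : ∀ {α β γ x y z : ℝ}, 0 ≤ β → 0 < x → 0 < y → 0 ≤ z → α * y ≤ β * x → γ * x ≤ α * z →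
      γ * y ≤ β * z := by
    intro α β γ x y z h1 h2 h3 h4 h5 h6
    have h7 : γ * x * y ≤ α * z * y := mul_le_mul_of_nonneg_right h6 h3.le
    have h8 : α * y * z ≤ β * x * z := mul_le_mul_of_nonneg_right h5 h4
    have h9 : γ * y * x ≤ β * z * x := by nlinarith
    exact le_of_mul_le_mul_right h9 h2
  rcases le_or_gt x 0 with hx | hx
  · rcases le_or_gt y 0 with hy | hy
    · have hz : 0 < z := by linarith
      exact Or.inr (Or.inr ⟨hz, aux hγ hα hz hx, aux hγ hβ hz hy⟩)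
    · rcases le_or_gt z 0 with hz | hz
      · exact Or.inr (Or.inl ⟨hy, aux hβ hα hy hx, aux hβ hγ hy hz⟩)
      · rcases le_total (β * z) (γ * y) with hh | hh
        · exact Or.inr (Or.inl ⟨hy, aux hβ hα hy hx, hh⟩)
        · exact Or.inr (Or.inr ⟨hz, aux hγ hα hz hx, hh⟩)
  · rcases le_or_gt y 0 with hy | hy
    · rcases le_or_gt z 0 with hz | hz
      · exact Or.inl ⟨hx, aux hα hβ hx hy, aux hα hγ hx hz⟩
      · rcases le_total (α * z) (γ * x) with hh | hh
        · exact Or.inl ⟨hx, aux hα hβ hx hy, hh⟩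
        · exact Or.inr (Or.inr ⟨hz, hh, aux hγ hβ hz hy⟩)
    · rcases le_or_gt z 0 with hz | hz
      · rcases le_total (α * y) (β * x) with hh | hh
        · exact Or.inl ⟨hx, hh, aux hα hγ hx hz⟩
        · exact Or.inr (Or.inl ⟨hy, hh, aux hβ hγ hy hz⟩)
      · rcases le_total (α * y) (β * x) with h1 | h1
        · rcases le_total (α * z) (γ * x) with h2 | h2
          · exact Or.inl ⟨hx, h1, h2⟩
          · exact Or.inr (Or.inr ⟨hz, h2, tr hβ hx hy hz.le h1 h2⟩)
        · rcases le_total (β * z) (γ * y) with h2 | h2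
          · exact Or.inr (Or.inl ⟨hy, h1, h2⟩)
          · exact Or.inr (Or.inr ⟨hz, tr hα hy hx hz.le h1 h2, h2⟩)

theorem hull_three {a b c d : ℝ × ℝ} (h : d ∈ convexHull ℝ {a, b, c}) :
    ∃ x y z : ℝ, 0 ≤ x ∧ 0 ≤ y ∧ 0 ≤ z ∧ x + y + z = 1 ∧ d = x • a + y • b + z • c := by
  rw [convexHull_insert (by simp), convexHull_pair, mem_convexJoin] at h
  obtain ⟨p, hp, q, hq, hd⟩ := h
  rw [Set.mem_singleton_iff] at hp
  subst hp
  obtain ⟨s, t, hs, ht, hst, rfl⟩ := hq
  obtain ⟨u, v, hu, hv, huv, rfl⟩ := hd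
  refine ⟨u, v * s, v * t, hu, mul_nonneg hv hs, mul_nonneg hv ht, ?_, ?_⟩
  · rw [add_assoc, ← mul_add, hst, mul_one, huv]
  · rw [smul_add, smul_smul, smul_smul, add_assoc]

theorem exchange_aux {b c d e : ℝ × ℝ} {a : ℝ × ℝ} {α β γ x y z : ℝ} (hα : 0 ≤ α)
    (h1 : α + β + γ = 1) (hd : d = α • a + β • b + γ • c) (h2 : x + y + z = 1)
    (he : e = x • a + y • b + z • c) (hx : 0 < x) (hy : α * y ≤ β * x) (hz : α * z ≤ γ * x) :
    d ∈ convexHull ℝ {e, b, c} := by
  refine mem_hull_three (x := α / x) (y := β - α / x * y) (z := γ - α / x * z) (by positivity)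
    ?_ ?_ ?_ ?_
  · have : α / x * y ≤ β := by rw [div_mul_eq_mul_div, div_le_iff₀ hx]; exact hy
    linarith
  · have : α / x * z ≤ γ := by rw [div_mul_eq_mul_div, div_le_iff₀ hx]; exact hz
    linarith
  · have : α / x * x = α := by field_simp
    have h3 : α / x * (x + y + z) = α / x := by rw [h2, mul_one]
    nlinarith
  · have : α / x * x = α := by field_simp
    rw [hd, he, smul_add, smul_add, smul_smul, smul_smul, smul_smul, this, sub_smul, sub_smul]
    abel

/-- the point `e` can replace one of the vertices of a triangle containing `d` -/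
theorem exchange {a b c d e : ℝ × ℝ} (h : ¬ Collinear ℝ {a, b, c})
    (hd : d ∈ convexHull ℝ {a, b, c}) :
    d ∈ convexHull ℝ {e, b, c} ∨ d ∈ convexHull ℝ {e, a, c} ∨ d ∈ convexHull ℝ {e, a, b} := by
  obtain ⟨α, β, γ, hα, hβ, hγ, h1, hd⟩ := hull_three hd
  have hD : (b.1 - a.1) * (c.2 - a.2) - (b.2 - a.2) * (c.1 - a.1) ≠ 0 :=
    fun h0 => h (collinear_of_det h0)
  set D := (b.1 - a.1) * (c.2 - a.2) - (b.2 - a.2) * (c.1 - a.1) with hDdef
  obtain ⟨y, hy⟩ : ∃ y, y = ((e.1 - a.1) * (c.2 - a.2) - (e.2 - a.2) * (c.1 - a.1)) / D := ⟨_, rfl⟩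
  obtain ⟨z, hz⟩ : ∃ z, z = ((b.1 - a.1) * (e.2 - a.2) - (b.2 - a.2) * (e.1 - a.1)) / D := ⟨_, rfl⟩
  have hy' : y * D = (e.1 - a.1) * (c.2 - a.2) - (e.2 - a.2) * (c.1 - a.1) := by
    rw [hy, div_mul_cancel₀ _ hD]
  have hz' : z * D = (b.1 - a.1) * (e.2 - a.2) - (b.2 - a.2) * (e.1 - a.1) := by
    rw [hz, div_mul_cancel₀ _ hD]
  have he : e = (1 - y - z) • a + y • b + z • c := by
    refine Prod.ext ?_ ?_
    · simp only [Prod.fst_add, Prod.smul_fst, smul_eq_mul]
      apply mul_left_cancel₀ hD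
      have : D * ((1 - y - z) * a.1 + y * b.1 + z * c.1) =
          D * a.1 + (y * D) * (b.1 - a.1) + (z * D) * (c.1 - a.1) := by ring
      rw [this, hy', hz', hDdef]
      ring
    · simp only [Prod.snd_add, Prod.smul_snd, smul_eq_mul]
      apply mul_left_cancel₀ hD
      have : D * ((1 - y - z) * a.2 + y * b.2 + z * c.2) =
          D * a.2 + (y * D) * (b.2 - a.2) + (z * D) * (c.2 - a.2) := by ring
      rw [this, hy', hz', hDdef]
      ring
  have hs : (1 - y - z) + y + z = 1 := by ring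
  rcases ratio_min hα hβ hγ hs with ⟨g1, g2, g3⟩ | ⟨g1, g2, g3⟩ | ⟨g1, g2, g3⟩
  · left
    exact exchange_aux hα h1 hd hs he g1 g2 g3
  · right; left
    refine exchange_aux (a := b) (b := a) (c := c) (α := β) (β := α) (γ := γ) (x := y)
      (y := 1 - y - z) (z := z) hβ (by linarith) (by rw [hd]; abel) (by ring) ?_ g1 g2 g3
    nth_rewrite 1 [he]
    abel
  · right; right
    refine exchange_aux (a := c) (b := a) (c := b) (α := γ) (β := α) (γ := β) (x := z)
      (y := 1 - y - z) (z := y) hγ (by linarith) (by rw [hd]; abel) (by ring) ?_ g1 g2 g3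
    nth_rewrite 1 [he]
    abel

end Pool.Agent.Q326.CT
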