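import Pool.Agent.Q326.CT.Upper

/-!
# The lower bound: point sets made of teeth
-/

set_option autoImplicit false

namespace Pool.Agent.Q326.CT

open Finset

/-- the heights of the points above the parabola -/
noncomputable def ht (n i : ℕ) : ℝ := if i % 3 = 1 ∧ i + 1 < n then 3 / 2 else 0

/-- the points of the configuration -/
noncomputable def pos (n i : ℕ) : ℝ × ℝ := ((i : ℝ), (i : ℝ) ^ 2 + ht n i)

theorem pos_injective (n : ℕ) : Function.Injective (pos n) := by
  intro i j h
  have := congrArg Prod.fst h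
  simpa [pos] using this

/-- the configuration -/
noncomputable def saw (n : ℕ) : Finset (ℝ × ℝ) := (range n).image (pos n)

theorem card_saw (n : ℕ) : (saw n).card = n := by
  rw [saw, card_image_of_injective _ (pos_injective n), card_range]

theorem ht_nonneg (n i : ℕ) : 0 ≤ ht n i := by
  unfold ht
  split_ifs <;> norm_num

theorem not_collinear_sorted (n : ℕ) {i j k : ℕ} (hij : i < j) (hjk : j < k) :
    ¬ Collinear ℝ {pos n i, pos n j, pos n k} := by
  intro h
  have hdet := det_of_collinear h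
  simp only [pos] at hdet
  obtain ⟨a, rfl⟩ : ∃ a, j = i + (a + 1) := ⟨j - i - 1, by omega⟩
  obtain ⟨b, rfl⟩ : ∃ b, k = i + (a + 1) + (b + 1) := ⟨k - (i + (a + 1)) - 1, by omega⟩
  set j := i + (a + 1) with hj
  have hi0 := ht_nonneg n i
  have hk0 := ht_nonneg n (j + (b + 1))
  have e1 : ((i + (a + 1) : ℕ) : ℝ) = i + (a + 1) := by push_cast; ring
  have e2 : ((i + (a + 1) + (b + 1) : ℕ) : ℝ) = i + (a + 1) + (b + 1) := by push_cast; ring
  rw [hj, e1, e2] at hdet
  have ha : (0 : ℝ) ≤ a := Nat.cast_nonneg a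
  have hb : (0 : ℝ) ≤ b := Nat.cast_nonneg b
  have key : ((a : ℝ) + 1) * (b + 1) * (a + 1 + (b + 1)) + (a + 1) * ht n (i + (a + 1) + (b + 1)) +
      (b + 1) * ht n i - (a + 1 + (b + 1)) * ht n (i + (a + 1)) = 0 := by
    linear_combination hdet
  have hk0' : 0 ≤ ht n (i + (a + 1) + (b + 1)) := hk0
  by_cases hh : (i + (a + 1)) % 3 = 1 ∧ i + (a + 1) + 1 < n
  · have h1 : ht n (i + (a + 1)) = 3 / 2 := by rw [ht, if_pos hh]
    rw [h1] at key
    by_cases hab : a = 0 ∧ b = 0
    · obtain ⟨rfl, rfl⟩ := hab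
      have h2 : ht n i = 0 := by rw [ht, if_neg (by omega)]
      have h3 : ht n (i + (0 + 1) + (0 + 1)) = 0 := by rw [ht, if_neg (by omega)]
      rw [h2, h3] at key
      norm_num at key
    · have h2 : (2 : ℝ) ≤ (a + 1) * (b + 1) := by
        have : 2 ≤ (a + 1) * (b + 1) := by
          rcases Nat.eq_zero_or_pos a with h | h
          · have : 0 < b := by omega
            subst h
            omega
          · nlinarith
        exact_mod_cast this
      nlinarith [mul_nonneg (add_nonneg ha zero_le_one) hk0', mul_nonneg (add_nonneg hb zero_le_one) hi0,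
        mul_le_mul_of_nonneg_right h2 (show (0 : ℝ) ≤ a + 1 + (b + 1) by positivity)]
  · have h1 : ht n (i + (a + 1)) = 0 := by rw [ht, if_neg hh]
    rw [h1] at key
    have h2 : 0 < ((a : ℝ) + 1) * (b + 1) * (a + 1 + (b + 1)) := by positivity
    nlinarith [mul_nonneg (add_nonneg ha zero_le_one) hk0', mul_nonneg (add_nonneg hb zero_le_one) hi0]

theorem general_saw (n : ℕ) : General (saw n) := by
  intro a ha b hb c hc hab hac hbc
  simp only [saw, mem_image] at ha hb hc
  obtain ⟨i, _, rfl⟩ := ha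
  obtain ⟨j, _, rfl⟩ := hb
  obtain ⟨k, _, rfl⟩ := hc
  have hij : i ≠ j := fun h => hab (h ▸ rfl)
  have hik : i ≠ k := fun h => hac (h ▸ rfl)
  have hjk : j ≠ k := fun h => hbc (h ▸ rfl)
  rcases lt_or_gt_of_ne hij with h1 | h1 <;> rcases lt_or_gt_of_ne hik with h2 | h2 <;>
    rcases lt_or_gt_of_ne hjk with h3 | h3
  · exact not_collinear_sorted n h1 h3
  · rw [show ({pos n i, pos n j, pos n k} : Set (ℝ × ℝ)) = {pos n i, pos n k, pos n j} by
      rw [Set.pair_comm (pos n j)]]
    exact not_collinear_sorted n h2 h3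
  · omega
  · rw [show ({pos n i, pos n j, pos n k} : Set (ℝ × ℝ)) = {pos n k, pos n i, pos n j} by
      rw [Set.pair_comm (pos n j), Set.insert_comm]]
    exact not_collinear_sorted n h2 h1
  · rw [show ({pos n i, pos n j, pos n k} : Set (ℝ × ℝ)) = {pos n j, pos n i, pos n k} by
      rw [Set.insert_comm]]
    exact not_collinear_sorted n h1 h2
  · omega
  · rw [show ({pos n i, pos n j, pos n k} : Set (ℝ × ℝ)) = {pos n j, pos n k, pos n i} by
      rw [Set.insert_comm, Set.pair_comm (pos n i)]]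
    exact not_collinear_sorted n h3 h2
  · rw [show ({pos n i, pos n j, pos n k} : Set (ℝ × ℝ)) = {pos n k, pos n j, pos n i} by
      rw [Set.insert_comm, Set.pair_comm (pos n i), Set.insert_comm]]
    exact not_collinear_sorted n h3 h1

/-- a tooth -/
noncomputable def tooth (n j : ℕ) : Finset (ℝ × ℝ) :=
  {pos n (3 * j), pos n (3 * j + 1), pos n (3 * j + 2)}

theorem convexPos_of_no_tooth {n : ℕ} {T : Finset (ℝ × ℝ)} (hT : T ⊆ saw n)
    (h : ∀ j, 3 * j + 2 < n → ¬ tooth n j ⊆ T) : ConvexPos T := by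
  intro x hx hxc
  obtain ⟨i, hi, rfl⟩ := mem_image.1 (hT hx)
  rw [mem_range] at hi
  suffices hμ : ∃ μ : ℝ, ∀ k, k ≠ i → pos n k ∈ T →
      0 < ((k : ℝ) - i) ^ 2 + ht n k - ht n i - μ * (k - i) by
    obtain ⟨μ, hμ⟩ := hμ
    have hlin : IsLinearMap ℝ (fun p : ℝ × ℝ => p.2 - (2 * i + μ) * p.1) :=
      ⟨fun p q => by simp only [Prod.snd_add, Prod.fst_add]; ring,
        fun c p => by simp only [Prod.smul_snd, Prod.smul_fst, smul_eq_mul]; ring⟩
    have hconv := convex_halfSpace_gt hlin ((i : ℝ) ^ 2 + ht n i - (2 * i + μ) * i)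
    have hsub : ((T.erase (pos n i) : Finset (ℝ × ℝ)) : Set (ℝ × ℝ)) ⊆
        {w | (i : ℝ) ^ 2 + ht n i - (2 * i + μ) * i < w.2 - (2 * i + μ) * w.1} := by
      intro p hp
      rw [mem_coe, mem_erase] at hp
      obtain ⟨k, _, rfl⟩ := mem_image.1 (hT hp.2)
      have hki : k ≠ i := fun h => hp.1 (h ▸ rfl)
      have := hμ k hki hp.2
      simp only [Set.mem_ofPred_eq, pos]
      nlinarith
    have := convexHull_min hsub hconv hxc
    simp only [Set.mem_ofPred_eq, pos] at this
    exact absurd this (lt_irrefl _)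
  have hsq : ∀ k : ℕ, k ≠ i → (1 : ℝ) ≤ ((k : ℝ) - i) ^ 2 := by
    intro k hk
    have h1 : (1 : ℤ) ≤ ((k : ℤ) - i) ^ 2 := by
      have : ((k : ℤ) - i) ≠ 0 := by omega
      have := sq_pos_of_ne_zero this
      omega
    exact_mod_cast h1
  by_cases hh : i % 3 = 1 ∧ i + 1 < n
  · obtain ⟨j, rfl⟩ : ∃ j, i = 3 * j + 1 := ⟨i / 3, by omega⟩
    have h1 : ht n (3 * j + 1) = 3 / 2 := by rw [ht, if_pos hh]
    rw [h1]
    have hnot := h j (by omega)
    rw [tooth, insert_subset_iff, insert_subset_iff, singleton_subset_iff] at hnot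
    by_cases h2 : pos n (3 * j) ∈ T
    · have h3 : pos n (3 * j + 2) ∉ T := fun h3 => hnot ⟨h2, hx, h3⟩
      refine ⟨3 / 4, fun k hk hkT => ?_⟩
      have hk2 : k ≠ 3 * j + 2 := fun h => h3 (h ▸ hkT)
      have hk0 := ht_nonneg n k
      rcases lt_or_ge k (3 * j + 1) with hlt | hge
      · have h4 : (k : ℝ) - ((3 * j + 1 : ℕ) : ℝ) ≤ -1 := by
          have : (k : ℝ) + 1 ≤ ((3 * j + 1 : ℕ) : ℝ) := by exact_mod_cast hlt
          linarith
        nlinarith
      · have h4 : (2 : ℝ) ≤ (k : ℝ) - ((3 * j + 1 : ℕ) : ℝ) := by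
          have : ((3 * j + 1 + 2 : ℕ) : ℝ) ≤ (k : ℝ) := by
            exact_mod_cast (show 3 * j + 1 + 2 ≤ k by omega)
          push_cast at this ⊢
          linarith
        nlinarith
    · refine ⟨-(3 / 4), fun k hk hkT => ?_⟩
      have hk2 : k ≠ 3 * j := fun h => h2 (h ▸ hkT)
      have hk0 := ht_nonneg n k
      rcases lt_or_ge k (3 * j + 1) with hlt | hge
      · have h4 : (k : ℝ) - ((3 * j + 1 : ℕ) : ℝ) ≤ -2 := by
          have : (k : ℝ) + 2 ≤ ((3 * j + 1 : ℕ) : ℝ) := by
            exact_mod_cast (show k + 2 ≤ 3 * j + 1 by omega)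
          linarith
        nlinarith
      · have h4 : (1 : ℝ) ≤ (k : ℝ) - ((3 * j + 1 : ℕ) : ℝ) := by
          have : ((3 * j + 1 + 1 : ℕ) : ℝ) ≤ (k : ℝ) := by
            exact_mod_cast (show 3 * j + 1 + 1 ≤ k by omega)
          push_cast at this ⊢
          linarith
        nlinarith
  · refine ⟨0, fun k hk _ => ?_⟩
    have h1 : ht n i = 0 := by rw [ht, if_neg hh]
    have := hsq k hk
    have := ht_nonneg n k
    rw [h1]
    linarith

theorem not_convexPos_of_tooth {n : ℕ} {T : Finset (ℝ × ℝ)} (hT : T ⊆ saw n) (h4 : 4 ≤ T.card)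
    {j : ℕ} (hj : 3 * j + 2 < n) (h : tooth n j ⊆ T) : ¬ ConvexPos T := by
  intro hconv
  have hc : (tooth n j).card ≤ 3 := card_le_three
  obtain ⟨z, hz, hzt⟩ : ∃ z ∈ T, z ∉ tooth n j := by
    by_contra hcon
    push Not at hcon
    have := card_le_card hcon
    omega
  obtain ⟨k, _, rfl⟩ := mem_image.1 (hT hz)
  rw [tooth, insert_subset_iff, insert_subset_iff, singleton_subset_iff] at h
  have hk0 : k ≠ 3 * j := fun h => hzt (by rw [h, tooth]; simp)
  have hk1 : k ≠ 3 * j + 1 := fun h => hzt (by rw [h, tooth]; simp)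
  have hk2 : k ≠ 3 * j + 2 := fun h => hzt (by rw [h, tooth]; simp)
  have hh1 : ht n (3 * j + 1) = 3 / 2 := by rw [ht, if_pos (by omega)]
  have hh0 : ht n (3 * j) = 0 := by rw [ht, if_neg (by omega)]
  have hh2 : ht n (3 * j + 2) = 0 := by rw [ht, if_neg (by omega)]
  refine hconv (pos n (3 * j + 1)) h.2.1 (convexHull_mono
    (s := {pos n k, pos n (3 * j), pos n (3 * j + 2)}) ?_ ?_)
  · intro p hp
    rw [mem_coe, mem_erase]
    simp only [Set.mem_insert_iff, Set.mem_singleton_iff] at hp
    rcases hp with rfl | rfl | rfl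
    · exact ⟨fun h => hk1 (pos_injective n h), hz⟩
    · exact ⟨fun h => by have := pos_injective n h; omega, h.1⟩
    · exact ⟨fun h => by have := pos_injective n h; omega, h.2.2⟩
  · obtain ⟨d, hd⟩ : ∃ d : ℝ, d = (k : ℝ) - (3 * j + 1) := ⟨_, rfl⟩
    have hd2 : (4 : ℝ) ≤ d ^ 2 ∧ (2 ≤ d ∨ d ≤ -2) := by
      have h5 : 2 ≤ d ∨ d ≤ -2 := by
        rcases lt_or_ge k (3 * j) with h6 | h6
        · right
          have : (k : ℝ) + 1 ≤ 3 * j := by exact_mod_cast h6
          linarith
        · left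
          have : (3 * j + 3 : ℝ) ≤ k := by exact_mod_cast (show 3 * j + 3 ≤ k by omega)
          linarith
      refine ⟨?_, h5⟩
      rcases h5 with h5 | h5 <;> nlinarith
    have hk : (k : ℝ) = d + (3 * j + 1) := by rw [hd]; ring
    have hhk := ht_nonneg n k
    set w := d ^ 2 + ht n k - 1 with hw
    have hw3 : 3 ≤ w := by linarith [hd2.1]
    have hw0 : 0 < w := by linarith
    have hld : |d| + 1 ≤ 2 * w := by
      rcases hd2.2 with h5 | h5
      · rw [abs_of_nonneg (by linarith)]
        nlinarith [hd2.1]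
      · rw [abs_of_nonpos (by linarith)]
        nlinarith [hd2.1]
    have hd3 := le_abs_self d
    have hd4 := neg_abs_le d
    refine mem_hull_three (x := 1 / (2 * w)) (y := (1 - 1 / (2 * w) + 1 / (2 * w) * d) / 2)
      (z := (1 - 1 / (2 * w) - 1 / (2 * w) * d) / 2) (by positivity) ?_ ?_ (by ring) ?_
    · have : 1 / (2 * w) * (1 - d) ≤ 1 := by
        rw [div_mul_eq_mul_div, div_le_one (by positivity)]
        linarith
      linarith
    · have : 1 / (2 * w) * (1 + d) ≤ 1 := by
        rw [div_mul_eq_mul_div, div_le_one (by positivity)]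
        linarith
      linarith
    · refine Prod.ext ?_ ?_
      · simp only [pos, Prod.fst_add, Prod.smul_fst, smul_eq_mul]
        rw [hk]
        push_cast
        ring
      · simp only [pos, Prod.snd_add, Prod.smul_snd, smul_eq_mul]
        rw [hh0, hh1, hh2]
        have e : (k : ℝ) ^ 2 + ht n k = w + 1 + 2 * d * (3 * j + 1) + (3 * j + 1) ^ 2 := by
          rw [hw, hk]
          ring
        rw [e]
        push_cast
        field_simp
        ring

theorem far_saw {n : ℕ} (hn : 6 ≤ n) : Far (1 / 4) (saw n) := by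
  intro T hT hconv
  rw [card_saw]
  suffices h : 4 * T.card ≤ 3 * n by
    have : (4 : ℝ) * T.card ≤ 3 * n := by exact_mod_cast h
    linarith
  rcases le_or_gt T.card 3 with h3 | h3
  · omega
  have hnt : ∀ j, 3 * j + 2 < n → ¬ tooth n j ⊆ T := fun j hj hjt =>
    not_convexPos_of_tooth hT h3 hj hjt hconv
  have hex : ∀ j, ∃ i : ℕ, j < n / 3 → i / 3 = j ∧ i < n ∧ pos n i ∉ T := by
    intro j
    by_cases hj : j < n / 3
    · have := hnt j (by omega)
      rw [tooth, insert_subset_iff, insert_subset_iff, singleton_subset_iff] at this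
      by_cases h1 : pos n (3 * j) ∈ T
      · by_cases h2 : pos n (3 * j + 1) ∈ T
        · exact ⟨3 * j + 2, fun _ => ⟨by omega, by omega, fun h => this ⟨h1, h2, h⟩⟩⟩
        · exact ⟨3 * j + 1, fun _ => ⟨by omega, by omega, h2⟩⟩
      · exact ⟨3 * j, fun _ => ⟨by omega, by omega, h1⟩⟩
    · exact ⟨0, fun h => absurd h hj⟩
  choose i hi using hex
  have hcard : n / 3 ≤ (saw n \ T).card := by
    rw [← card_range (n / 3)]
    refine card_le_card_of_injOn (fun j => pos n (i j)) ?_ ?_
    · intro j hj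
      rw [mem_coe, mem_range] at hj
      obtain ⟨_, h1, h2⟩ := hi j hj
      rw [mem_coe, mem_sdiff]
      exact ⟨mem_image_of_mem _ (mem_range.2 h1), h2⟩
    · intro j hj j' hj' h
      rw [mem_coe, mem_range] at hj hj'
      have := pos_injective n h
      have h1 := (hi j hj).1
      have h2 := (hi j' hj').1
      rw [← h1, ← h2, this]
  rw [card_sdiff_of_subset hT, card_saw] at hcard
  have := card_le_card hT
  rw [card_saw] at this
  omega

/-- the tester accepts the configuration with high probability -/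
theorem acc_saw {n s : ℕ} (hs : s ≤ n) :
    1 - ((n / 3 : ℕ) : ℝ) * rho n s 3 ≤ acc (saw n) s := by
  classical
  have hB : (0 : ℝ) < n.choose s := by exact_mod_cast Nat.choose_pos hs
  rw [acc, card_powersetCard, card_saw, le_div_iff₀ hB]
  set P := (saw n).powersetCard s with hP
  have h1 : P.card = n.choose s := by rw [hP, card_powersetCard, card_saw]
  have h2 : P ⊆ P.filter ConvexPos ∪ (range (n / 3)).biUnion fun j => P.filter fun T =>
      tooth n j ⊆ T := by
    intro T hT
    rw [mem_union, mem_filter, mem_biUnion]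
    by_cases hc : ConvexPos T
    · exact Or.inl ⟨hT, hc⟩
    · right
      by_contra hcon
      refine hc (convexPos_of_no_tooth (mem_powersetCard.1 hT).1 fun j hj hjt => hcon
        ⟨j, mem_range.2 (by omega), mem_filter.2 ⟨hT, hjt⟩⟩)
  have h3 := (card_le_card h2).trans (card_union_le _ _)
  have h4 : ((((range (n / 3)).biUnion fun j => P.filter fun T => tooth n j ⊆ T).card : ℕ) : ℝ) ≤
      ((n / 3 : ℕ) : ℝ) * ((n.choose s : ℝ) * rho n s 3) := by
    have h5 : ((((range (n / 3)).biUnion fun j => P.filter fun T => tooth n j ⊆ T).card : ℕ) : ℝ) ≤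
        ∑ j ∈ range (n / 3), ((P.filter fun T => tooth n j ⊆ T).card : ℝ) := by
      exact_mod_cast card_biUnion_le
    refine h5.trans ?_
    have h6 : ∀ j ∈ range (n / 3), ((P.filter fun T => tooth n j ⊆ T).card : ℝ) =
        (n.choose s : ℝ) * rho n s 3 := by
      intro j hj
      rw [mem_range] at hj
      have hsub : tooth n j ⊆ saw n := by
        rw [tooth, insert_subset_iff, insert_subset_iff, singleton_subset_iff]
        exact ⟨mem_image_of_mem _ (mem_range.2 (by omega)),
          mem_image_of_mem _ (mem_range.2 (by omega)), mem_image_of_mem _ (mem_range.2 (by omega))⟩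
      have hc : (tooth n j).card = 3 := by
        refine card_eq_three.2 ⟨_, _, _, ?_, ?_, ?_, rfl⟩ <;>
        · intro h
          have := pos_injective n h
          omega
      rw [hP, card_superset' (saw n) (tooth n j) s hsub, card_saw, hc]
    rw [sum_congr rfl h6, sum_const, card_range, nsmul_eq_mul]
  have h7 : (n.choose s : ℝ) ≤ (P.filter ConvexPos).card +
      ((((range (n / 3)).biUnion fun j => P.filter fun T => tooth n j ⊆ T).card : ℕ) : ℝ) := by
    rw [← h1]
    exact_mod_cast h3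
  nlinarith

end Pool.Agent.Q326.CT
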