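import Pool.Agent.Q326.CT.Count
import Pool.Agent.Q326.CT.Geo

/-!
# The upper bound for the sample size
-/

set_option autoImplicit false

namespace Pool.Agent.Q326.CT

open Finset

open Classical in
/-- the probability that the tester with sample size `s` accepts `S`: the proportion of convex sets
among the `s`-element subsets of `S` -/
noncomputable def acc (S : Finset (ℝ × ℝ)) (s : ℕ) : ℝ :=
  (((S.powersetCard s).filter ConvexPos).card : ℝ) / ((S.powersetCard s).card : ℝ)

/-- `S` is `ε`-far from convex: every convex subset has at most `(1 - ε) |S|` points. -/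
def Far (ε : ℝ) (S : Finset (ℝ × ℝ)) : Prop :=
  ∀ T ⊆ S, ConvexPos T → (T.card : ℝ) ≤ (1 - ε) * S.card

/-- a set of four points which is not in convex position, with an inner point -/
def Bad (Q : Finset (ℝ × ℝ)) : Prop :=
  Q.card = 4 ∧ ∃ d ∈ Q, d ∈ convexHull ℝ ((Q.erase d : Finset (ℝ × ℝ)) : Set (ℝ × ℝ))

theorem exists_bad {R : Finset (ℝ × ℝ)} (hR : General R) (h : ¬ ConvexPos R) :
    ∃ Q ⊆ R, Bad Q := by
  simp only [ConvexPos, not_forall, not_not] at h
  obtain ⟨x, hx, hx'⟩ := h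
  rw [convexHull_eq_union] at hx'
  simp only [Set.mem_iUnion, exists_prop] at hx'
  obtain ⟨t, ht, hai, hxt⟩ := hx'
  have ht' : t ⊆ R.erase x := by exact_mod_cast ht
  have hxn : x ∉ t := fun h => by simpa using ht' h
  have hc : t.card ≤ 3 := by
    have h1 := hai.card_le_finrank_succ
    have h2 : Module.finrank ℝ (vectorSpan ℝ (Set.range ((↑) : t → ℝ × ℝ))) ≤ 2 := by
      refine (Submodule.finrank_le _).trans ?_
      simp
    rw [Fintype.card_coe] at h1
    omega
  have hpos : t.Nonempty := by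
    rw [nonempty_iff_ne_empty]
    rintro rfl
    simp at hxt
  have h3 : t.card = 3 := by
    have h0 := hpos.card_pos
    interval_cases h4 : t.card
    · obtain ⟨a, rfl⟩ := card_eq_one.1 h4
      simp only [coe_singleton, convexHull_singleton, Set.mem_singleton_iff] at hxt
      exact absurd (by simp [hxt]) hxn
    · obtain ⟨a, b, hab, rfl⟩ := card_eq_two.1 h4
      rw [coe_pair, convexHull_pair, mem_segment_iff_wbtw] at hxt
      have hcol := hxt.collinear
      have ha := ht' (show a ∈ ({a, b} : Finset (ℝ × ℝ)) by simp)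
      have hb := ht' (show b ∈ ({a, b} : Finset (ℝ × ℝ)) by simp)
      rw [mem_erase] at ha hb
      exact absurd hcol (hR a ha.2 x hx b hb.2 ha.1 hab (Ne.symm hb.1))
    · rfl
  refine ⟨insert x t, insert_subset hx (ht'.trans (erase_subset _ _)), ?_, x, mem_insert_self _ _,
    ?_⟩
  · rw [card_insert_of_notMem hxn, h3]
  · rwa [erase_insert hxn]

theorem exchange_triple {S Q : Finset (ℝ × ℝ)} (hS : General S) (hQ : Q ⊆ S) (hb : Bad Q)
    {e : ℝ × ℝ} (he : e ∉ Q) :
    ∃ τ ⊆ Q, τ.card = 3 ∧ ∀ T : Finset (ℝ × ℝ), e ∈ T → τ ⊆ T → ¬ ConvexPos T := by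
  obtain ⟨h4, d, hd, hdQ⟩ := hb
  have h3 : (Q.erase d).card = 3 := by rw [card_erase_of_mem hd, h4]
  obtain ⟨a, b, c, hab, hac, hbc, hQd⟩ := card_eq_three.1 h3
  have ha : a ∈ Q.erase d := by rw [hQd]; simp
  have hb' : b ∈ Q.erase d := by rw [hQd]; simp
  have hc : c ∈ Q.erase d := by rw [hQd]; simp
  rw [mem_erase] at ha hb' hc
  have hed : e ≠ d := fun h => he (h ▸ hd)
  have hcol := hS a (hQ ha.2) b (hQ hb'.2) c (hQ hc.2) hab hac hbc
  rw [hQd] at hdQ
  have hdQ' : d ∈ convexHull ℝ {a, b, c} := by simpa using hdQ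
  have key : ∀ p q : ℝ × ℝ, p ∈ Q → q ∈ Q → p ≠ d → q ≠ d → p ≠ q →
      d ∈ convexHull ℝ {e, p, q} →
      ∃ τ ⊆ Q, τ.card = 3 ∧ ∀ T : Finset (ℝ × ℝ), e ∈ T → τ ⊆ T → ¬ ConvexPos T := by
    intro p q hp hq hpd hqd hpq h
    refine ⟨{d, p, q}, ?_, card_eq_three.2 ⟨d, p, q, Ne.symm hpd, Ne.symm hqd, hpq, rfl⟩, ?_⟩
    · intro x hx
      simp only [mem_insert, mem_singleton] at hx
      rcases hx with rfl | rfl | rfl <;> assumption
    · intro T heT hT hconv
      refine hconv d (hT (by simp)) (convexHull_mono ?_ h)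
      intro x hx
      simp only [Set.mem_insert_iff, Set.mem_singleton_iff] at hx
      rw [mem_coe, mem_erase]
      rcases hx with rfl | rfl | rfl
      · exact ⟨hed, heT⟩
      · exact ⟨hpd, hT (by simp)⟩
      · exact ⟨hqd, hT (by simp)⟩
  rcases exchange (e := e) hcol hdQ' with h | h | h
  · exact key b c hb'.2 hc.2 hb'.1 hc.1 hbc h
  · exact key a c ha.2 hc.2 ha.1 hc.1 hac h
  · exact key a b ha.2 hb'.2 ha.1 hb'.1 hab h

/-- a large family of disjoint bad quadruples -/
theorem exists_family {S : Finset (ℝ × ℝ)} (hS : General S) (hF : Far (1 / 4) S) :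
    ∃ F : Finset (Finset (ℝ × ℝ)), (∀ Q ∈ F, Q ⊆ S ∧ Bad Q) ∧
      (∀ Q ∈ F, ∀ Q' ∈ F, Q ≠ Q' → Disjoint Q Q') ∧ S.card ≤ 16 * F.card := by
  classical
  let 𝓕 := (S.powerset.powerset).filter fun F : Finset (Finset (ℝ × ℝ)) =>
    (∀ Q ∈ F, Q ⊆ S ∧ Bad Q) ∧ (∀ Q ∈ F, ∀ Q' ∈ F, Q ≠ Q' → Disjoint Q Q')
  have hne : 𝓕.Nonempty := ⟨∅, by simp [𝓕]⟩
  obtain ⟨F, hF1, hmax⟩ := exists_max_image 𝓕 card hne
  simp only [𝓕, mem_filter, mem_powerset] at hF1
  obtain ⟨-, h1, h2⟩ := hF1
  refine ⟨F, h1, h2, ?_⟩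
  set U := F.biUnion id with hU
  have hR : ConvexPos (S \ U) := by
    by_contra hcon
    have hgen : General (S \ U) := fun a ha b hb c hc =>
      hS a (sdiff_subset ha) b (sdiff_subset hb) c (sdiff_subset hc)
    obtain ⟨Q, hQ, hbad⟩ := exists_bad hgen hcon
    have hdis : ∀ Q' ∈ F, Disjoint Q Q' := by
      intro Q' hQ'
      rw [disjoint_left]
      intro x hx hx'
      have := hQ hx
      rw [mem_sdiff] at this
      exact this.2 (mem_biUnion.2 ⟨Q', hQ', hx'⟩)
    have hQF : Q ∉ F := by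
      intro hQF
      have := hdis Q hQF
      rw [disjoint_self_iff_empty] at this
      rw [this] at hbad
      simpa using hbad.1
    have hmem : insert Q F ∈ 𝓕 := by
      simp only [𝓕, mem_filter, mem_powerset]
      refine ⟨?_, ?_, ?_⟩
      · intro Q' hQ'
        rw [mem_powerset]
        rcases mem_insert.1 hQ' with rfl | h
        · exact hQ.trans sdiff_subset
        · exact (h1 Q' h).1
      · intro Q' hQ'
        rcases mem_insert.1 hQ' with rfl | h
        · exact ⟨hQ.trans sdiff_subset, hbad⟩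
        · exact h1 Q' h
      · intro Q' hQ' Q'' hQ'' hne
        rcases mem_insert.1 hQ' with rfl | h <;> rcases mem_insert.1 hQ'' with rfl | h'
        · exact absurd rfl hne
        · exact hdis Q'' h'
        · exact (hdis Q' h).symm
        · exact h2 Q' h Q'' h' hne
    have := hmax _ hmem
    rw [card_insert_of_notMem hQF] at this
    omega
  have h3 := hF _ sdiff_subset hR
  have h4 : U.card ≤ F.card * 4 := by
    refine card_biUnion_le_card_mul _ _ _ fun Q hQ => ?_
    exact (h1 Q hQ).2.1.le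
  have h5 : S.card ≤ (S \ U).card + U.card := by
    have := le_card_sdiff U S
    omega
  have h6 : (S.card : ℝ) ≤ (S \ U).card + F.card * 4 := by exact_mod_cast h5.trans (by omega)
  have h7 : (S.card : ℝ) ≤ 16 * F.card := by linarith
  exact_mod_cast h7

/-- the basic estimate: few subsets are convex -/
theorem acc_le {S : Finset (ℝ × ℝ)} (hS : General S) (hF : Far (1 / 4) S) (h7 : 7 ≤ S.card)
    {s : ℕ} (hs : 1 ≤ s) (hs' : s ≤ S.card) :
    acc S s * (((S.card : ℝ) / 16 - 1) * rho (S.card - 1) (s - 1) 3) ≤ 1 := by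
  classical
  obtain ⟨F, h1, h2, h16⟩ := exists_family hS hF
  set n := S.card with hn
  set ρ := rho (n - 1) (s - 1) 3 with hρ
  have hρ0 : 0 ≤ ρ := rho_nonneg _ _ _
  -- the count for one point
  have hone : ∀ e ∈ S, ((((S.powersetCard s).filter ConvexPos).filter fun T => e ∈ T).card : ℝ) *
      (((n : ℝ) / 16 - 1) * ρ) ≤ (n - 1).choose (s - 1) := by
    intro e he
    have hτ : ∀ Q : Finset (ℝ × ℝ), ∃ τ : Finset (ℝ × ℝ), Q ∈ F → e ∉ Q →
        τ ⊆ Q ∧ τ.card = 3 ∧ ∀ T : Finset (ℝ × ℝ), e ∈ T → τ ⊆ T → ¬ ConvexPos T := by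
      intro Q
      by_cases hQ : Q ∈ F ∧ e ∉ Q
      · obtain ⟨τ, h⟩ := exchange_triple hS (h1 Q hQ.1).1 (h1 Q hQ.1).2 hQ.2
        exact ⟨τ, fun _ _ => h⟩
      · exact ⟨∅, fun h h' => absurd ⟨h, h'⟩ hQ⟩
    choose τ hτ using hτ
    set I := F.filter fun Q => e ∉ Q with hI
    have hcI : F.card ≤ I.card + 1 := by
      have h3 : (F.filter fun Q => ¬ e ∉ Q).card ≤ 1 := by
        rw [card_le_one]
        intro Q hQ Q' hQ'
        simp only [mem_filter, not_not] at hQ hQ'
        by_contra hne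
        exact (disjoint_left.1 (h2 Q hQ.1 Q' hQ'.1 hne)) hQ.2 hQ'.2
      have h5 := card_filter_add_card_filter_not (s := F) (fun Q => e ∉ Q)
      have h6 : (F.filter fun Q => e ∉ Q).card = I.card := rfl
      omega
    have hVc : (S.erase e).card = n - 1 := card_erase_of_mem he
    have hfew := few_avoid (S.erase e) (s - 1) (by rw [hVc]; omega) (by rw [hVc]; omega) I τ
      (fun Q hQ => by
        rw [hI, mem_filter] at hQ
        obtain ⟨h3, _⟩ := hτ Q hQ.1 hQ.2
        intro x hx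
        rw [mem_erase]
        exact ⟨fun h => hQ.2 (h ▸ h3 hx), (h1 Q hQ.1).1 (h3 hx)⟩)
      (fun Q hQ => by
        rw [hI, mem_filter] at hQ
        exact (hτ Q hQ.1 hQ.2).2.1)
      (fun Q hQ Q' hQ' hne => by
        rw [hI, mem_filter] at hQ hQ'
        exact disjoint_of_subset_left (hτ Q hQ.1 hQ.2).1
          (disjoint_of_subset_right (hτ Q' hQ'.1 hQ'.2).1 (h2 Q hQ.1 Q' hQ'.1 hne)))
    rw [hVc] at hfew
    have hcard : (((S.powersetCard s).filter ConvexPos).filter fun T => e ∈ T).card ≤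
        (((S.erase e).powersetCard (s - 1)).filter fun T => ∀ Q ∈ I, ¬ τ Q ⊆ T).card := by
      refine card_le_card_of_injOn (fun T => T.erase e) ?_ ?_
      · intro T hT
        simp only [coe_filter, mem_filter, mem_powersetCard, Set.mem_ofPred_eq] at hT ⊢
        obtain ⟨⟨⟨hTS, hTc⟩, hconv⟩, heT⟩ := hT
        refine ⟨⟨erase_subset_erase e hTS, by rw [card_erase_of_mem heT, hTc]⟩, ?_⟩
        intro Q hQ hsub
        rw [hI, mem_filter] at hQ
        exact (hτ Q hQ.1 hQ.2).2.2 T heT (hsub.trans (erase_subset _ _)) hconv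
      · intro T hT T' hT' h
        simp only [coe_filter, mem_filter, Set.mem_ofPred_eq] at hT hT'
        have h3 : insert e (T.erase e) = insert e (T'.erase e) := by
          simp only at h
          rw [h]
        rwa [insert_erase hT.2, insert_erase hT'.2] at h3
    have hI1 : (n : ℝ) / 16 - 1 ≤ I.card := by
      have h3 : (n : ℝ) ≤ 16 * F.card := by exact_mod_cast h16
      have h4 : (F.card : ℝ) ≤ I.card + 1 := by exact_mod_cast hcI
      linarith
    have hI2 : ((n : ℝ) / 16 - 1) * ρ ≤ I.card * ρ := mul_le_mul_of_nonneg_right hI1 hρ0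
    refine le_trans ?_ hfew
    refine (mul_le_mul_of_nonneg_left hI2 (Nat.cast_nonneg _)).trans ?_
    refine mul_le_mul_of_nonneg_right ?_ (mul_nonneg (Nat.cast_nonneg _) hρ0)
    exact_mod_cast hcard
  -- double counting
  set P := (S.powersetCard s).filter ConvexPos with hP
  have hdc : (s : ℝ) * P.card = ∑ e ∈ S, ((P.filter fun T => e ∈ T).card : ℝ) := by
    have h3 : ∀ T ∈ P, (∑ e ∈ S, if e ∈ T then (1 : ℝ) else 0) = s := by
      intro T hT
      rw [hP, mem_filter, mem_powersetCard] at hT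
      rw [← sum_filter, filter_mem_eq_inter, inter_eq_right.2 hT.1.1, sum_const, hT.1.2]
      simp
    have h4 : ∑ T ∈ P, (∑ e ∈ S, if e ∈ T then (1 : ℝ) else 0) = s * P.card := by
      rw [sum_congr rfl h3, sum_const, nsmul_eq_mul, mul_comm]
    rw [← h4, sum_comm]
    refine sum_congr rfl fun e _ => ?_
    rw [← sum_filter, sum_const, nsmul_eq_mul, mul_one]
  have hsum : (s : ℝ) * P.card * (((n : ℝ) / 16 - 1) * ρ) ≤ n * (n - 1).choose (s - 1) := by
    rw [hdc, sum_mul]
    refine (sum_le_sum hone).trans ?_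
    rw [sum_const, nsmul_eq_mul]
  have hch : (n : ℝ) * (n - 1).choose (s - 1) = s * n.choose s := by
    obtain ⟨m, hm⟩ : ∃ m, n = m + 1 := ⟨n - 1, by omega⟩
    obtain ⟨k, hk⟩ : ∃ k, s = k + 1 := ⟨s - 1, by omega⟩
    rw [hm, hk]
    have := Nat.add_one_mul_choose_eq m k
    rw [Nat.add_sub_cancel, Nat.add_sub_cancel]
    have h3 : (((m + 1) * m.choose k : ℕ) : ℝ) = (((m + 1).choose (k + 1) * (k + 1) : ℕ) : ℝ) := by
      rw [this]
    push_cast at h3 ⊢
    linarith
  have hB : (0 : ℝ) < n.choose s := by exact_mod_cast Nat.choose_pos hs'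
  have hs0 : (0 : ℝ) < s := by exact_mod_cast hs
  rw [hch] at hsum
  have hfin : (P.card : ℝ) * (((n : ℝ) / 16 - 1) * ρ) ≤ n.choose s := by
    refine le_of_mul_le_mul_left ?_ hs0
    calc (s : ℝ) * (P.card * (((n : ℝ) / 16 - 1) * ρ)) = s * P.card * (((n : ℝ) / 16 - 1) * ρ) := by
          ring
      _ ≤ _ := hsum
  rw [acc, card_powersetCard, ← hn, div_mul_eq_mul_div, div_le_one hB]
  exact hfin

end Pool.Agent.Q326.CT
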